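import Mathlib
import Pool.Agent.R359.RothKT

/-!
# MP_f9bcb0_lc, Q1: ZFC proves that some (Tychonoff) space is Rothberger but not ω-Rothberger

The space is the disjoint sum of two variants of Moore's L space in the power of the circle with
exponent `ω₁`: the points `pt z 0 β` and `pt z (1/2) β`, `β < ω₁`.
-/

set_option autoImplicit false

namespace Pool.Agent.Results.MP_f9bcb0_lc.RothNotOmega

open Filter Topology Set
open Pool.Agent.Results.MP_b9a716_gt.MooreLSpace Pool.Agent.R359.Roth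

/-- open covers -/
def IsOpenCover {X : Type} [TopologicalSpace X] (𝒰 : Set (Set X)) : Prop :=
  (∀ U ∈ 𝒰, IsOpen U) ∧ ⋃₀ 𝒰 = univ

/-- ω-covers -/
def IsOmegaCover {X : Type} [TopologicalSpace X] (𝒰 : Set (Set X)) : Prop :=
  IsOpenCover 𝒰 ∧ (univ : Set X) ∉ 𝒰 ∧ ∀ F : Set X, F.Finite → ∃ U ∈ 𝒰, F ⊆ U

/-- The Rothberger property `S₁(𝒪, 𝒪)`. -/
def Rothberger (X : Type) [TopologicalSpace X] : Prop :=
  ∀ 𝒰 : ℕ → Set (Set X), (∀ n, IsOpenCover (𝒰 n)) →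
    ∃ U : ℕ → Set X, (∀ n, U n ∈ 𝒰 n) ∧ IsOpenCover (Set.range U)

/-- The ω-Rothberger property `S₁(Ω, Ω)`. -/
def OmegaRothberger (X : Type) [TopologicalSpace X] : Prop :=
  ∀ 𝒰 : ℕ → Set (Set X), (∀ n, IsOmegaCover (𝒰 n)) →
    ∃ U : ℕ → Set X, (∀ n, U n ∈ 𝒰 n) ∧ IsOmegaCover (Set.range U)

section

variable {W : Type}

theorem nbhd_pi {V : Set (W → UnitAddCircle)} {v : W → UnitAddCircle} (h1 : V ∈ 𝓝 v) :
    ∃ (s : Finset W) (n : ℕ), ∀ v' : W → UnitAddCircle,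
      (∀ ξ ∈ s, ‖v' ξ - v ξ‖ < 1 / ((n : ℝ) + 1)) → v' ∈ V := by
  rw [nhds_pi, Filter.mem_pi] at h1
  obtain ⟨I, hI, t, ht, hsub⟩ := h1
  have h2 : ∀ ξ, ∃ ε > 0, Metric.ball (v ξ) ε ⊆ t ξ := fun ξ => Metric.mem_nhds_iff.1 (ht ξ)
  choose ε hε hball using h2
  obtain ⟨n, hn⟩ : ∃ n : ℕ, ∀ ξ ∈ hI.toFinset, 1 / ((n : ℝ) + 1) < ε ξ := by
    have h3 : ∀ ξ, ∃ n : ℕ, 1 / ((n : ℝ) + 1) < ε ξ := fun ξ => exists_nat_one_div_lt (hε ξ)
    choose N hN using h3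
    refine ⟨hI.toFinset.sup N, fun ξ hξ => lt_of_le_of_lt ?_ (hN ξ)⟩
    apply one_div_le_one_div_of_le (by positivity)
    have : N ξ ≤ hI.toFinset.sup N := Finset.le_sup hξ
    have : (N ξ : ℝ) ≤ (hI.toFinset.sup N : ℕ) := by exact_mod_cast this
    linarith
  refine ⟨hI.toFinset, n, fun v' hv' => ?_⟩
  apply hsub
  intro ξ hξ
  apply hball
  rw [Metric.mem_ball, dist_eq_norm]
  have hξ' : ξ ∈ hI.toFinset := by simpa using hξ
  exact (hv' ξ hξ').trans (hn ξ hξ')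

end

/-- tail values -/
noncomputable def τ (i : Bool) : UnitAddCircle := if i then ((1 / 2 : ℝ) : UnitAddCircle) else 0

theorem τ_sep (c : UnitAddCircle) (h0 : ‖c - τ false‖ < 1 / 4) (h1 : ‖c - τ true‖ < 1 / 4) :
    False := by
  have h2 : ‖τ true - τ false‖ < 1 / 2 := by
    calc ‖τ true - τ false‖ = ‖(c - τ false) - (c - τ true)‖ := by congr 1; abel
      _ ≤ ‖c - τ false‖ + ‖c - τ true‖ := norm_sub_le _ _
      _ < 1 / 2 := by linarith
  have h3 : ‖((1 / 2 : ℝ) : UnitAddCircle)‖ = 1 / 2 := by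
    have := AddCircle.norm_half_period_eq (1 : ℝ)
    rw [abs_one] at this
    exact this
  have h4 : τ true - τ false = ((1 / 2 : ℝ) : UnitAddCircle) := by simp [τ]
  rw [h4, h3] at h2
  exact lt_irrefl _ h2

section

variable {W : Type} [LinearOrder W] [OrderBot W] [WellFoundedLT W] [Om W]

/-- the points of the space -/
noncomputable def F (z : W → UnitAddCircle) (p : W × Bool) : (W → UnitAddCircle) × Bool :=
  (pt z (τ p.2) p.1, p.2)

/-- the space -/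
abbrev XS (z : W → UnitAddCircle) : Type := Set.range (F z)

noncomputable def P (z : W → UnitAddCircle) (p : W × Bool) : XS z := ⟨F z p, p, rfl⟩

theorem nbhd_XS (z : W → UnitAddCircle) {O : Set (XS z)} (hO : IsOpen O) (p : W × Bool)
    (hp : P z p ∈ O) : ∃ (s : Finset W) (n : ℕ), ∀ β',
      (∀ ξ ∈ s, ‖pt z (τ p.2) β' ξ - pt z (τ p.2) p.1 ξ‖ < 1 / ((n : ℝ) + 1)) →
        P z (β', p.2) ∈ O := by
  obtain ⟨V, hV, rfl⟩ := isOpen_induced_iff.1 hO
  obtain ⟨V1, V2, hV1, hV2, h1, h2, h3⟩ := isOpen_prod_iff.1 hV (pt z (τ p.2) p.1) p.2 hp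
  obtain ⟨s, n, h4⟩ := nbhd_pi (hV1.mem_nhds h1)
  refine ⟨s, n, fun β' h => ?_⟩
  exact h3 ⟨h4 _ h, h2⟩

theorem roth {z : W → UnitAddCircle} (hz : Kr z) : Rothberger (XS z) := by
  classical
  intro 𝒰 h𝒰
  have h1 : ∀ (n : ℕ) (p : W × Bool), ∃ U ∈ 𝒰 n, P z p ∈ U := by
    intro n p
    have : P z p ∈ ⋃₀ 𝒰 n := by rw [(h𝒰 n).2]; trivial
    exact this
  choose U hU hPU using h1
  choose s N hsN using fun (n : ℕ) (p : W × Bool) =>
    nbhd_XS z ((h𝒰 n).1 _ (hU n p)) p (hPU n p)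
  choose Q hQc hQ using fun (q : ℕ × Bool) =>
    lind hz (τ q.2) (fun β => s q.1 (β, q.2)) (fun β => N q.1 (β, q.2))
  obtain ⟨δ, hδ⟩ := Om.bdd (⋃ q : ℕ × Bool, ⋃ β ∈ Q q, (↑(s q.1 (β, q.2)) : Set W)) (by
    refine Set.countable_iUnion fun q => ?_
    exact (hQc q).biUnion fun β _ => (Finset.countable_toSet _))
  have hδ' : ∀ (n : ℕ) (i : Bool), ∀ β ∈ Q (n, i), ∀ ξ ∈ s n (β, i), ξ < δ := by
    intro n i β hβ ξ hξ
    apply hδ
    exact Set.mem_iUnion.2 ⟨(n, i), Set.mem_iUnion₂.2 ⟨β, hβ, hξ⟩⟩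
  choose D hDc hD using fun i : Bool => exists_reps (W := W) (z := z) (τ i) δ
  have hne : ({p : W × Bool | p.1 ∈ D p.2}).Nonempty := by
    obtain ⟨β', hβ', -⟩ := hD false ⊥
    exact ⟨(β', false), hβ'⟩
  have hcount : ({p : W × Bool | p.1 ∈ D p.2}).Countable := by
    have : {p : W × Bool | p.1 ∈ D p.2} ⊆ ⋃ i : Bool, (fun β => (β, i)) '' D i := by
      rintro ⟨β, i⟩ h
      exact Set.mem_iUnion.2 ⟨i, β, h, rfl⟩
    exact (Set.countable_iUnion fun i => (hDc i).image _).mono this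
  obtain ⟨e, he⟩ := hcount.exists_eq_range hne
  choose b hb hb' using fun n : ℕ => hQ (n, (e n).2) (e n).1
  refine ⟨fun n => U n (b n, (e n).2), fun n => hU n _, ?_, ?_⟩
  · rintro _ ⟨n, rfl⟩
    exact (h𝒰 n).1 _ (hU n _)
  · rw [Set.eq_univ_iff_forall]
    rintro ⟨_, ⟨⟨β, i⟩, rfl⟩⟩
    obtain ⟨d, hd, hdβ⟩ := hD i β
    have : (d, i) ∈ Set.range e := by rw [← he]; exact hd
    obtain ⟨n, hn⟩ := this
    refine ⟨_, ⟨n, rfl⟩, ?_⟩
    have hn1 : (e n).1 = d := by rw [hn]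
    have hn2 : (e n).2 = i := by rw [hn]
    show P z (β, i) ∈ U n (b n, (e n).2)
    have hbn := hb n
    have hbn' := hb' n
    rw [hn1, hn2] at hbn'
    rw [hn2] at hbn
    rw [hn2]
    apply hsN n (b n, i) β
    intro ξ hξ
    rw [hdβ ξ (hδ' n i (b n) hbn ξ hξ)]
    exact hbn' ξ hξ

/-- the members of the ω-cover -/
def Wc (z : W → UnitAddCircle) (a : W) : Set (XS z) := {x | ‖x.1.1 a - τ x.1.2‖ < 1 / 4}

theorem Wc_open (z : W → UnitAddCircle) (a : W) : IsOpen (Wc z a) := by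
  refine isOpen_lt ?_ continuous_const
  have h1 : Continuous fun x : XS z => x.1.1 a :=
    (continuous_apply a).comp (continuous_fst.comp continuous_subtype_val)
  have h2 : Continuous fun x : XS z => τ x.1.2 :=
    (continuous_of_discreteTopology (f := τ)).comp (continuous_snd.comp continuous_subtype_val)
  exact (h1.sub h2).norm

theorem Wc_not_both (z : W → UnitAddCircle) {a β : W} (h : a < β)
    (h0 : P z (β, false) ∈ Wc z a) (h1 : P z (β, true) ∈ Wc z a) : False := by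
  have e0 : ‖pt z (τ false) β a - τ false‖ < 1 / 4 := h0
  have e1 : ‖pt z (τ true) β a - τ true‖ < 1 / 4 := h1
  rw [pt_of_lt h] at e0 e1
  exact τ_sep _ e0 e1

theorem exists_gt (a : W) : ∃ β : W, a < β := by
  obtain ⟨β, hβ⟩ := Om.bdd ({a} : Set W) (Set.countable_singleton a)
  exact ⟨β, hβ a rfl⟩

theorem Wc_cover (z : W → UnitAddCircle) : IsOmegaCover (Set.range (Wc z)) := by
  have hfin : ∀ G : Set (XS z), G.Finite → ∃ U ∈ Set.range (Wc z), G ⊆ U := by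
    intro G hG
    have h1 : ∀ x : XS z, ∃ p, F z p = x.1 := fun x => x.2
    choose p hp using h1
    obtain ⟨a, ha⟩ := Om.bdd ((fun x => (p x).1) '' G) (hG.countable.image _)
    refine ⟨Wc z a, ⟨a, rfl⟩, fun x hx => ?_⟩
    have h2 : (p x).1 < a := ha _ ⟨x, hx, rfl⟩
    show ‖x.1.1 a - τ x.1.2‖ < 1 / 4
    rw [← hp x]
    show ‖pt z (τ (p x).2) (p x).1 a - τ (p x).2‖ < 1 / 4
    rw [pt_of_le h2.le, sub_self, norm_zero]
    norm_num
  refine ⟨⟨?_, ?_⟩, ?_, hfin⟩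
  · rintro _ ⟨a, rfl⟩
    exact Wc_open z a
  · rw [Set.eq_univ_iff_forall]
    intro x
    obtain ⟨U, hU, hx⟩ := hfin {x} (Set.finite_singleton x)
    exact ⟨U, hU, hx rfl⟩
  · rintro ⟨a, ha⟩
    obtain ⟨β, hβ⟩ := exists_gt a
    exact Wc_not_both z hβ (by rw [ha]; trivial) (by rw [ha]; trivial)

theorem not_omega (z : W → UnitAddCircle) : ¬ OmegaRothberger (XS z) := by
  intro h
  obtain ⟨U, hU, hcov⟩ := h (fun _ => Set.range (Wc z)) fun _ => Wc_cover z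
  choose a ha using hU
  obtain ⟨β, hβ⟩ := bdd_range a
  obtain ⟨V, ⟨n, rfl⟩, hV⟩ := hcov.2.2 {P z (β, false), P z (β, true)} (Set.toFinite _)
  rw [← ha n] at hV
  exact Wc_not_both z (hβ n) (hV (by simp)) (hV (by simp))

end

/-- **Q1 (negated form).** There is (in ZFC) a Tychonoff space which is Rothberger but not
ω-Rothberger. -/
theorem result : ∃ (X : Type) (_ : TopologicalSpace X),
    T35Space X ∧ Rothberger X ∧ ¬ OmegaRothberger X := by
  obtain ⟨W, i1, i2, i3, i4, hW⟩ := exists_W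
  obtain ⟨z, hz1, hz2⟩ := kron W hW
  exact ⟨XS z, inferInstance, inferInstance, roth ⟨hz1, hz2⟩, not_omega z⟩

end Pool.Agent.Results.MP_f9bcb0_lc.RothNotOmega
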